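import Pool.Agent.Y571.NX.Main
import Pool.Agent.Y65.NX.Recb
import Pool.Agent.Y145.NX.MERGE
import Pool.Agent.Y217.NX.Reca
import Pool.Agent.Y931.NX.Lift

/-!
# MP_e4a9a7_pr: avoiding couplings of two simple random walks, all pairs, all dimensions

Two simple random walks on `Z^d` started at `x` and `y` can be coupled so that their paths are
disjoint with positive probability if and only if `d ≥ 3` and `x ≠ y`.
-/

set_option autoImplicit false

open MeasureTheory ProbabilityTheory
open scoped ENNReal

namespace Pool.Agent.Results.MP_e4a9a7_pr.AllPairsAllDimensions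

/-- `X` is a simple random walk on the lattice `Fin d → ℤ` started at `x`, under the law `P`: the
increments are independent, and each of the `2 d` unit vectors is taken with probability
`1 / (2 d)`. -/
def IsSRW {d : ℕ} {Ω : Type} [MeasurableSpace Ω] (P : Measure Ω) (x : Fin d → ℤ)
    (X : ℕ → Ω → Fin d → ℤ) : Prop :=
  (∀ n, Measurable (X n)) ∧ (∀ ω, X 0 ω = x) ∧
  iIndepFun (fun n ω => X (n + 1) ω - X n ω) P ∧
  ∀ n (i : Fin d), P {ω | X (n + 1) ω - X n ω = Pi.single i 1} = 1 / (2 * (d : ℝ≥0∞)) ∧
    P {ω | X (n + 1) ω - X n ω = Pi.single i (-1)} = 1 / (2 * (d : ℝ≥0∞))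

/-- There is a coupling of two simple random walks started at `x` and `y` whose paths (sets of all
visited sites) are disjoint with positive probability. -/
def HasAvoidingCoupling {d : ℕ} (x y : Fin d → ℤ) : Prop :=
  ∃ (Ω : Type) (_ : MeasurableSpace Ω) (P : Measure Ω) (_ : IsProbabilityMeasure P)
    (X Y : ℕ → Ω → Fin d → ℤ), IsSRW P x X ∧ IsSRW P y Y ∧
    0 < P {ω | Disjoint (Set.range fun n => X n ω) (Set.range fun m => Y m ω)}

/-- **Main theorem.** For every dimension `d` and all starting points `x`, `y` of `Z^d` two simple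
random walks started at `x` and `y` can be coupled so that their paths do not intersect with
positive probability if and only if `d ≥ 3` and `x ≠ y`. In particular the answer to the question
is yes, for both `d = 3` and `d = 4`, and for every pair of points at distance ten. -/
theorem result :
    (∀ (d : ℕ) (x y : Fin d → ℤ), HasAvoidingCoupling x y ↔ 3 ≤ d ∧ x ≠ y) ∧
    (∀ x y : Fin 3 → ℤ, ∑ i, |x i - y i| = 10 → HasAvoidingCoupling x y) ∧
    (∀ x y : Fin 4 → ℤ, ∑ i, |x i - y i| = 10 → HasAvoidingCoupling x y) := by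
  have hm : ∀ (d : ℕ) (x y : Fin d → ℤ), HasAvoidingCoupling x y ↔ 3 ≤ d ∧ x ≠ y :=
    Pool.Agent.Y571.NX.main (Pool.Agent.Y931.NX.lift Pool.Agent.Y145.NX.merge)
      (Pool.Agent.Y65.NX.recb Pool.Agent.Y217.NX.reca)
  refine ⟨hm, fun x y h => (hm 3 x y).2 ⟨le_rfl, ?_⟩, fun x y h => (hm 4 x y).2 ⟨by omega, ?_⟩⟩
  · rintro rfl
    simp at h
  · rintro rfl
    simp at h

end Pool.Agent.Results.MP_e4a9a7_pr.AllPairsAllDimensions
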